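import Pool.Agent.H85.MWRig2

namespace Pool.Agent.Results.MP_a761c9_gt.Dichotomy

open Pool.Agent.H85 Pool.Agent.H85.MW2

/-- A monotonic, mean width preserving symmetrization fixing `H`-symmetric sets which is not
invariant under translations orthogonal to `H` of `H`-symmetric sets exists iff `dim H = 0`. -/
theorem result (n i : ℕ) (hn : 2 ≤ n) (H : Submodule ℝ (EuclideanSpace ℝ (Fin n)))
    (hH : Module.finrank ℝ H = i) (b : Bool) :
    (∃ D : Set (EuclideanSpace ℝ (Fin n)) → Set (EuclideanSpace ℝ (Fin n)), Good H b D ∧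
      ¬ ∀ K, Cls b K → Sym H K → ∀ y ∈ Hᗮ, D ((fun x => x + y) '' K) = D K) ↔ i = 0 := by
  constructor
  · rintro ⟨D, hD, h⟩
    by_contra hi
    have hH0 : H ≠ ⊥ := by
      rintro rfl
      exact hi (by rw [← hH, finrank_bot])
    obtain ⟨e, he, he0⟩ := Submodule.exists_mem_ne_zero_of_ne_bot hH0
    have hs : ∀ K, Sym H K ↔ ∀ x ∈ K, H.reflection x ∈ K := fun K =>
      ⟨fun h x hx => h ▸ ⟨x, hx, rfl⟩, fun h => Set.Subset.antisymm
        (by rintro _ ⟨x, hx, rfl⟩; exact h x hx)
        fun x hx => ⟨_, h x hx, H.reflection_reflection x⟩⟩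
    have hG : MW.G H.reflection b D := ⟨H.reflection_reflection,
      fun K hK => ⟨(hD.maps K hK).1, (hs _).1 (hD.maps K hK).2⟩, hD.mono,
      fun K hK => (MW.mw_eq_iff (by omega) (hD.maps K hK).1.1 (hD.maps K hK).1.2.2.1 hK.1
        hK.2.2.1).1 (hD.width K hK), fun K hK h => hD.fixes K hK ((hs K).2 h)⟩
    refine h fun K hK hK' y hy => ?_
    rw [hD.fixes K hK hK']
    exact MW.rigid hG (norm_smul_inv_norm (𝕜 := ℝ) he0)
      (Submodule.reflection_mem_subspace_eq_self (H.smul_mem _ he)) hK ((hs K).1 hK')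
      (Submodule.reflection_mem_subspace_orthogonalComplement_eq_neg hy)
  · rintro rfl
    obtain rfl : H = ⊥ := Submodule.finrank_eq_zero.1 hH
    have hg := MW.good_D (n := n) (by omega) b
    refine ⟨MW.D, hg, fun h => ?_⟩
    obtain ⟨x, hx⟩ := MW.D_ball hn
    have hB : Cls b (Metric.closedBall (0 : EuclideanSpace ℝ (Fin n)) 1) :=
      ⟨isCompact_closedBall _ _, convex_closedBall _ _, by simp, fun _ =>
        ⟨0, Metric.ball_subset_interior_closedBall (by simp)⟩⟩
    have hS : Sym ⊥ (Metric.closedBall (0 : EuclideanSpace ℝ (Fin n)) 1) :=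
      MW.sym_bot.2 fun x hx => by simpa using hx
    exact hx ((h _ hB hS x (by simp)).trans (hg.fixes _ hB hS))

end Pool.Agent.Results.MP_a761c9_gt.Dichotomy
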